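import Pool.Agent.Q311.LN.E

/-!
# The weak relative semi-abelian Schanuel-type conjecture, in bounded degree, at the points of analytic families of any
# dimension

Let `G = E_1 × … × E_n × 𝔾ₘ^s` be a product of elliptic curves `ℂ / Λ_(c i)` and a torus (`c i = c j` for equal curves;
curves with different indices are not isogenous; complex multiplication is allowed, and the invariants are arbitrary
complex numbers). Let `x ↦ r(x) = (p_1(x), …, p_n(x), t_1(x), …, t_s(x))` be any analytic map from a connected open subset
`U` of an affine space, of any dimension, to the Lie algebra of `G`. Up to algebraic functions of them, the components of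
`r(x)` and `exp_G r(x)` are the `2 (n + s)` numbers `p_i(x)`, `℘(p_i(x))`, `t_k(x)`, `exp(t_k(x))`. The conjecture says
that for algebraic invariants there are at least `d` independent numbers among them over the field generated by the
periods, `d` the dimension of the smallest translate of an algebraic subgroup by an algebraic point which contains
`exp_G r(x)`; `d = n + s` in general.

We assume that `r` is generic along one line: no nontrivial combination of the `p_i` which belong to one curve with
coefficients in its ring of endomorphisms, and no nontrivial integral combination of the `t_k`, is constant along it.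

Then there are `n + s = dim G` fixed functions among the `2 (n + s)` components such that the following is true. There
are bounds `ω T → ∞` such that for all number fields `K` of degree at most `ω T`, at all points `x ∈ U` with coordinates in
`K` of height at most `T` outside few hypersurfaces of small degree, these `dim G` numbers do not satisfy any nontrivial
relation of degree at most `ω T` whose coefficients are combinations of arbitrary complex constants `ξ` (for instance the
monomials in the periods and quasi-periods) with integral coefficients in `K` of size at most `T ^ ω T`.

The functional independence is Ax's theorem for functions of one variable (a starting library by helper776), used on one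
line; the theorem on values is for functions of several variables.
-/

set_option autoImplicit false

open Pool.Agent.Q311.MV Pool.Agent.Q311.LN
open scoped PeriodPair

namespace Pool.Agent.Results.MP_4aec10_nt.AnalyticVarieties

/-- The names of the components of `r` and `exp_G r`. -/
inductive Name (n s : ℕ) : Type
  | t : Fin s → Name n s
  | expt : Fin s → Name n s
  | p : Fin n → Name n s
  | wp : Fin n → Name n s

/-- The components `t_k(x)`, `exp(t_k(x))`, `p_i(x)`, `℘(p_i(x))`. -/
noncomputable def component {X : Type} {q n s : ℕ} (Λ : Fin q → PeriodPair) (c : Fin n → Fin q)
    (p : Fin n → (X → ℂ) → ℂ) (t : Fin s → (X → ℂ) → ℂ) (x : X → ℂ) : Name n s → ℂ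
  | Name.t k => t k x
  | Name.expt k => Complex.exp (t k x)
  | Name.p i => p i x
  | Name.wp i => ℘[Λ (c i)] (p i x)

/-- the name in the larger family -/
def big {n s : ℕ} : Name n s → EName n s := fun a => match a with
  | Name.t k => EName.t k
  | Name.expt k => EName.expt k
  | Name.p i => EName.p i
  | Name.wp i => EName.wp i

/-- the name in the smaller family -/
def small {n s : ℕ} : EName n s → Option (Name n s) := fun a => match a with
  | EName.t k => some (Name.t k)
  | EName.expt k => some (Name.expt k)
  | EName.p i => some (Name.p i)
  | EName.zeta _ => none
  | EName.wp i => some (Name.wp i)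

/-- Let `x ↦ (p(x), t(x))` be an analytic map from the connected open set `U ⊆ ℂ ^ X` to the Lie algebra of the product of
the elliptic curves `ℂ / Λ (c i)`, `i < n`, and the `s`-dimensional torus, generic along one line. There are `n + s`
different functions among the `2 (n + s)` components of `r = (p, t)` and `exp_G r` whose values at almost all points over
all number fields are independent. -/
theorem result {X : Type} [Fintype X] [DecidableEq X] [Nonempty X] (U : Set (X → ℂ)) (hU : IsOpen U) {q n s : ℕ}
    (Λ : Fin q → PeriodPair) (c : Fin n → Fin q) (p : Fin n → (X → ℂ) → ℂ) (t : Fin s → (X → ℂ) → ℂ) (a v : X → ℂ)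
    (z₀ : ℂ) (r : ℝ) (h : EFamily U Λ c p t a v z₀ r) :
    ∃ e : Fin (n + s) → Name n s, Function.Injective e ∧ AlmostAllValues U fun k x => component Λ c p t x (e k) := by
  classical
  have hne : U.Nonempty := ⟨_, h.mem z₀ (Metric.mem_ball_self h.r_pos)⟩
  obtain ⟨e, he, hI⟩ := eindep hU h
  have hcast : n + s + n = 2 * n + s := by ring
  obtain ⟨e', he', hB, hI'⟩ := indep_in (F := fun m x => evalue Λ c p t x m) (m := n + s) (d := n)
    (e := fun k => e (Fin.cast hcast k)) (he.comp (Fin.cast_injective hcast))
    (indep_sub hI (g := Fin.cast hcast) (Fin.cast_injective hcast)) (fun m => small m ≠ none) (by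
    have h1 : (Finset.univ.filter fun m : EName n s => ¬ small m ≠ none) ⊆ Finset.univ.image EName.zeta := by
      intro m hm
      rw [Finset.mem_filter, not_not] at hm
      rcases m with k | k | i | i | i
      · exact absurd hm.2 (by simp [small])
      · exact absurd hm.2 (by simp [small])
      · exact absurd hm.2 (by simp [small])
      · exact Finset.mem_image_of_mem _ (Finset.mem_univ i)
      · exact absurd hm.2 (by simp [small])
    exact (Finset.card_le_card h1).trans (Finset.card_image_le.trans (by simp)))
  have hbig : ∀ k, ∃ m : Name n s, big m = e' k := by
    intro k
    have h1 := hB k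
    rcases h2 : e' k with k' | k' | i | i | i
    · exact ⟨Name.t k', rfl⟩
    · exact ⟨Name.expt k', rfl⟩
    · exact ⟨Name.p i, rfl⟩
    · rw [h2] at h1
      exact absurd rfl h1
    · exact ⟨Name.wp i, rfl⟩
  choose f hf using hbig
  have hv : ∀ (m : Name n s) (x : X → ℂ), component Λ c p t x m = evalue Λ c p t x (big m) := by
    intro m x
    rcases m with k | k | i | i <;> rfl
  refine ⟨f, fun k l hkl => he' (by rw [← hf k, ← hf l, hkl]), ?_⟩
  refine almostAll_of_indep h.isPreconnected hU hne (fun k => ?_) ?_
  · simp only [hv]
    exact evalue_an h _
  · simp only [hv, hf]
    exact hI'

end Pool.Agent.Results.MP_4aec10_nt.AnalyticVarieties
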