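import Mathlib
import Pool.Agent.Q29.OvX
import Pool.Agent.Q23.AQ.Pw
import Pool.Agent.Q23.AQ.Comb

/-!
# Points of `Lie G_m^(m+r)` over arbitrary constants: uniform distribution of the multiples of the values

For real numbers `α_i, β_i, γ_i, δ_i` and distinct real numbers `x_i < 0` we consider the point
`r(t) = (α_i t log t + β_i t + γ_i log t + δ_i ; log (t + x_i))` of the Lie algebra of `G_m ^ (m + r)`, and the numbers
`e ^ (α_i t log t + β_i t + γ_i log t + δ_i)` and `log (t + x_i)` among the components of `exp_G(r)` and `r`. If there are no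
integers `k_i` which are not all zero with `∑ k_i α_i = ∑ k_i β_i = 0` and `∑ k_i γ_i` an integer, these are `m + r` independent
functions, the dimension of `G`.
Let `ξ_1, …, ξ_g` be ARBITRARY real numbers, which may depend on `T` and may be as large as `T ^ H`, for instance
`π` and the `α_i, β_i, γ_i, δ_i, x_i`.
Let `F` be a number field of degree at most `m` with an embedding in the complex numbers, and let `X` be any finite set of
numbers of `F` in `[a, b]` which are quotients of integers of `F` with conjugates at most `T`. For all but `C T ^ ε |X| ^ (n - 1)`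
of the `n`-tuples of elements `q_j` of `X` the following holds: every value `y` of a polynomial of partial degrees at most `d` at
these functions at `q_j`, whose coefficients are polynomials in the `ξ_i` of partial degrees at most `d` with integer
coefficients at most `T ^ A`, one of the nonconstant ones being at least `T ^ (-H)` in absolute value, has uniformly distributed
multiples at all the scales `M` between `T ^ B` and `T ^ E`: `k y`, `k < M`, also for `k` in the set of the powers of fixed exponent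
or of the prime numbers in a residue class, is uniformly distributed modulo one with an error `M ^ (1 - κ)`. The constants do not
depend on the field, on the set `X` and on the numbers `ξ_i`.
So for almost all points the conjecture has no counterexample among the relations of bounded degree and height, over `ℚ(π)` and
over all fields generated by `g` real numbers, and the values are not even near to rational numbers with small denominators.

The proof uses the theorem of helper23 on approximate relations over arbitrary constants at algebraic points (`Q23.AQ.fewR`,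
from the starting files `Y124`, `Y771`), the independence of the functions (`Q23.AQ.pw_ind`, `Q23.AQ.comb_log`), an inverse theorem for the sums of
Weyl and a form of the estimate of Vinogradov for the sums over primes with a power saving (`H373R2/NB`, `W110/HV`).
-/

set_option autoImplicit false

namespace Pool.Agent.Results.MP_4aec10_nt.MultiplesOverPeriods

open Finset Polynomial

/-- The multiples of `x` are uniformly distributed at the scale `M`, with a power saving, along all polynomials of degree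
at most `K` and along the primes of all residue classes:

* for every nonzero integer `b` with `|b| ≤ M ^ κ`, every `1 ≤ k ≤ K` and every real polynomial `R` of degree less than
  `k`, the number of `0 ≤ n < M` with the fractional part of `b x n ^ k + R(n)` in `[u, v)` is `(v - u) M` up to
  `M ^ (1 - κ)`, for all `0 ≤ u ≤ v ≤ 1`;
* for every such `b`, every `1 ≤ d ≤ M ^ κ`, every `r` and every real `β`, the number of primes `p ≤ M` with
  `p ≡ r (mod d)` and the fractional part of `b x p + β` in `[u, v)` is `(v - u)` times the number of all the primes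
  `p ≤ M` with `p ≡ r (mod d)`, up to `M ^ (1 - κ)`. -/
def Good (κ : ℝ) (K M : ℕ) (x : ℝ) : Prop :=
  (∀ b : ℤ, b ≠ 0 → |(b : ℝ)| ≤ (M : ℝ) ^ κ → ∀ k : ℕ, 1 ≤ k → k ≤ K → ∀ R : ℝ[X], R.degree < k →
    ∀ u v : ℝ, 0 ≤ u → u ≤ v → v ≤ 1 →
      |(((range M).filter fun n : ℕ => u ≤ Int.fract (b * x * (n : ℝ) ^ k + R.eval (n : ℝ)) ∧
          Int.fract (b * x * (n : ℝ) ^ k + R.eval (n : ℝ)) < v).card : ℝ) - (v - u) * M| ≤
        (M : ℝ) ^ (1 - κ)) ∧
  (∀ b : ℤ, b ≠ 0 → |(b : ℝ)| ≤ (M : ℝ) ^ κ → ∀ d r : ℕ, 1 ≤ d → (d : ℝ) ≤ (M : ℝ) ^ κ → ∀ β : ℝ,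
    ∀ u v : ℝ, 0 ≤ u → u ≤ v → v ≤ 1 →
      |(((range (M + 1)).filter fun p : ℕ => (p.Prime ∧ p ≡ r [MOD d]) ∧
          (u ≤ Int.fract (b * x * p + β) ∧ Int.fract (b * x * p + β) < v)).card : ℝ) -
        (v - u) * ((range (M + 1)).filter fun p : ℕ => p.Prime ∧ p ≡ r [MOD d]).card| ≤
        (M : ℝ) ^ (1 - κ))

/-- The value at `y` of the polynomial `P` whose coefficients are integer polynomials in the numbers `ξ_1, …, ξ_g`. -/
noncomputable def value {g : ℕ} {τ : Type} (ξ : Fin g → ℝ) (y : τ → ℝ) (P : MvPolynomial τ (MvPolynomial (Fin g) ℤ)) : ℝ :=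
  MvPolynomial.eval₂ (MvPolynomial.aeval ξ : MvPolynomial (Fin g) ℤ →ₐ[ℤ] ℝ).toRingHom y P

/-- The polynomials of degree at most `d` in every variable whose coefficients are polynomials in `ξ_1, …, ξ_g` of degree at most
`d` in every variable with integer coefficients of absolute value at most `R`, with a nonconstant coefficient whose value is at
least `r` in absolute value. -/
def Admissible {g : ℕ} {τ : Type} (ξ : Fin g → ℝ) (d : ℕ) (R r : ℝ) (P : MvPolynomial τ (MvPolynomial (Fin g) ℤ)) : Prop :=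
  (∀ j, P.degreeOf j ≤ d) ∧ (∀ e i, (P.coeff e).degreeOf i ≤ d) ∧ (∀ e u, |(((P.coeff e).coeff u : ℤ) : ℝ)| ≤ R) ∧
    ∃ e, e ≠ 0 ∧ r ≤ |MvPolynomial.aeval ξ (P.coeff e)|

/-- The numbers of a number field `F`, with an embedding `ι`, which are in `[a, b]` and are quotients of integers of `F` all of
whose conjugates have absolute value at most `T`. -/
def IsPoint {F : Type} [Field F] (ι : F →+* ℂ) (a b T : ℝ) (x : F) : Prop :=
  (∃ t : ℝ, a ≤ t ∧ t ≤ b ∧ ι x = t) ∧
    ∃ α β : NumberField.RingOfIntegers F, β ≠ 0 ∧ (∀ φ : F →+* ℂ, ‖φ α‖ ≤ T ∧ ‖φ β‖ ≤ T) ∧ x = α / β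

/-- The `n`-tuples `q` of numbers of `X` for which there are an admissible polynomial `P` and an `M` between `T ^ B` and `T ^ E`
such that the multiples of its value at the numbers `f_i(q_j)` are not uniformly distributed at the scale `M`. -/
def Exceptional {κ F : Type} [Field F] {g : ℕ} (n : ℕ) (f : κ → ℝ → ℝ) (ι : F →+* ℂ) (X : Finset F) (ξ : Fin g → ℝ)
    (d K : ℕ) (A H κ₀ B E T : ℝ) : Set (Fin n → F) :=
  {q | (∀ j, q j ∈ X) ∧
    ∃ P : MvPolynomial (Fin n × κ) (MvPolynomial (Fin g) ℤ), Admissible ξ d (T ^ A) (T ^ (-H)) P ∧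
      ∃ M : ℕ, T ^ B ≤ (M : ℝ) ∧ (M : ℝ) ≤ T ^ E ∧ ¬ Good κ₀ K M (value ξ (fun z => f z.2 (ι (q z.1)).re) P)}

/-- The assertion for the functions `f_i` on `[a, b]`. -/
def FewExceptions {κ : Type} (f : κ → ℝ → ℝ) (a b : ℝ) : Prop :=
  ∀ (m n g d K : ℕ) (H A ε : ℝ), 0 ≤ H → 0 ≤ A → 0 < ε → ∃ B : ℝ, 1 ≤ B ∧ ∀ E : ℝ, ∃ κ₀ : ℝ, 0 < κ₀ ∧ ∃ C T₀ : ℝ,
    ∀ (F : Type) [Field F] [NumberField F], Module.finrank ℚ F ≤ m → ∀ (ι : F →+* ℂ) (ξ : Fin g → ℝ) (T : ℝ), T₀ ≤ T →
      (∀ i, |ξ i| ≤ T ^ H) → ∀ X : Finset F, (∀ x ∈ X, IsPoint ι a b T x) →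
        (Exceptional n f ι X ξ d K A H κ₀ B E T).Finite ∧
        ((Exceptional n f ι X ξ d K A H κ₀ B E T).ncard : ℝ) ≤ C * T ^ ε * (X.card : ℝ) ^ (n - 1)

/-- The functions `e ^ (α_i t log t + β_i t + γ_i log t + δ_i)`, `i < m`, and `log (t + x_i)`, `i < r`. -/
noncomputable def functions {m r : ℕ} (α β γ δ : Fin m → ℝ) (x : Fin r → ℝ) (z : Fin m ⊕ Fin r) (t : ℝ) : ℝ :=
  match z with
  | Sum.inl i => Real.exp (α i * t * Real.log t + β i * t + γ i * Real.log t + δ i)
  | Sum.inr i => Real.log (t + x i)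

theorem few {κ : Type} [Fintype κ] [DecidableEq κ] (f : κ → ℝ → ℝ) (a b : ℝ)
    (han : ∀ i, AnalyticOnNhd ℝ (f i) (Set.Icc a b)) (hind : Pool.Agent.Y120.AInd f a b) : FewExceptions f a b := by
  intro m n g d K H A ε hH hA hε
  obtain ⟨B, hB, h⟩ := Pool.Agent.Q29.Eqd.badX_count f a b han hind m n g d K H A ε hH hA hε
  refine ⟨B, hB, fun E => ?_⟩
  obtain ⟨κ₀, C, T₀, hκ₀, hC⟩ := h E
  refine ⟨κ₀, hκ₀, C, T₀, fun F _ _ hF ι ξ T hT hξ X hX => ?_⟩
  have hsub : Exceptional n f ι X ξ d K A H κ₀ B E T ⊆ Pool.Agent.Q29.Eqd.BadX n g d K ι X f (T ^ A) (T ^ (-H)) κ₀ (T ^ B) (T ^ E) ξ := by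
    rintro q ⟨hq, P, ⟨hP1, hP2, hP3, hP4⟩, hbad⟩
    exact ⟨hq, P, hP1, hP2, hP3, hP4, hbad⟩
  have hfin := Pool.Agent.Q29.Eqd.badX_fin n g d K ι X f (T ^ A) (T ^ (-H)) κ₀ (T ^ B) (T ^ E) ξ
  refine ⟨hfin.subset hsub, le_trans ?_ (hC F hF ι ξ T hT hξ X hX)⟩
  exact_mod_cast Set.ncard_le_ncard hsub hfin

/-- the assertion depends only on the values of the functions on the interval -/
theorem few_congr {κ : Type} (f g : κ → ℝ → ℝ) (a b : ℝ) (hfg : ∀ i, ∀ t ∈ Set.Icc a b, f i t = g i t)
    (h : FewExceptions g a b) : FewExceptions f a b := by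
  intro m n g' d K H A ε hH hA hε
  obtain ⟨B₁, hB, h1⟩ := h m n g' d K H A ε hH hA hε
  refine ⟨B₁, hB, fun E => ?_⟩
  obtain ⟨κ₀, hκ₀, C, T₀, hC⟩ := h1 E
  refine ⟨κ₀, hκ₀, C, T₀, fun F _ _ hF ι ξ T hT hξ X hX => ?_⟩
  have hset : Exceptional n f ι X ξ d K A H κ₀ B₁ E T = Exceptional n g ι X ξ d K A H κ₀ B₁ E T := by
    ext q
    refine and_congr_right fun hq => ?_
    have he : (fun z : Fin n × κ => f z.2 (ι (q z.1)).re) = fun z => g z.2 (ι (q z.1)).re := by
      funext z
      obtain ⟨⟨t, ht1, ht2, ht3⟩, -⟩ := hX _ (hq z.1)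
      rw [ht3, Complex.ofReal_re]
      exact hfg _ t ⟨ht1, ht2⟩
    simp only [he]
  rw [hset]
  exact hC F hF ι ξ T hT hξ X hX

/-- Let `α_i, β_i, γ_i, δ_i` be real numbers such that there are no integers `k_i`, not all zero, with
`∑ k_i α_i = ∑ k_i β_i = 0` and `∑ k_i γ_i` an integer, and let `x_1, …, x_r < 0` be distinct real numbers with `a + x_i > 0`,
`0 < a < b`. -/
theorem result {m r : ℕ} (α β γ δ : Fin m → ℝ)
    (h : ∀ (k : Fin m → ℤ) (l : ℤ), ∑ i, (k i : ℝ) * α i = 0 → ∑ i, (k i : ℝ) * β i = 0 → ∑ i, (k i : ℝ) * γ i = l → k = 0)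
    (x : Fin r → ℝ) (hx : Function.Injective x) (hx0 : ∀ i, x i < 0) (a b : ℝ) (ha : 0 < a) (hab : a < b)
    (hxa : ∀ i, 0 < a + x i) : FewExceptions (functions α β γ δ x) a b := by
  refine few_congr _ (Sum.elim (fun i => Q23.AQ.pw (δ i) (β i) (α i) (γ i)) (TH659.AQ.lf x)) a b ?_ ?_
  · rintro (i | i) t ht
    · have ht0 : 0 < t := ha.trans_le ht.1
      show Real.exp (α i * t * Real.log t + β i * t + γ i * Real.log t + δ i) = Q23.AQ.pw (δ i) (β i) (α i) (γ i) t
      unfold Q23.AQ.pw
      rw [Real.rpow_def_of_pos ht0, ← Real.exp_add]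
      congr 1
      ring
    · rfl
  refine few _ a b ?_ ?_
  · rintro (i | i) t ht
    · exact Q23.AQ.pw_an _ _ _ _ (ha.trans_le ht.1)
    · exact TH659.AQ.lf_an x i (by linarith [hxa i, ht.1])
  · intro d
    exact Q23.AQ.comb_log (fun i => Q23.AQ.pw (δ i) (β i) (α i) (γ i)) 0 a b ha hab
      (fun i t ht => Q23.AQ.pw_an _ _ _ _ ht) (Q23.AQ.pw_ind δ β α γ h a b ha hab) x hx
      (fun i => by linarith [hx0 i]) hxa

end Pool.Agent.Results.MP_4aec10_nt.MultiplesOverPeriods
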