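import Pool.Agent.Q229.RAM
import Pool.Agent.Q192.QD.FixAll

/-!
# The weak relative semi-abelian Schanuel-type conjecture on analytic curves, at ALL number field points near almost every point

Let `G = E_1 × ⋯ × E_n × 𝔾ₘ^s` be a product of elliptic curves `ℂ / Λ_(c i)` (with arbitrary invariants; curves with different
indices `c` are not isogenous, complex multiplication is allowed) and a torus, and let `z ↦ r(z) = (p_1(z), …, p_n(z), t_1(z), …, t_s(z))`
be an analytic curve in `Lie G` on the connected open set `U ⊆ ℂ`. Up to algebraic functions of them, the components of `r(z)` and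
`exp_G r(z)` are the `2 (n + s)` numbers `p_i(z)`, `℘(p_i(z))`, `t_k(z)`, `exp(t_k(z))`. The conjecture says that there are at least
`d(exp_G r(z))` independent numbers among them over the field generated by the periods of `G`; in general this is `n + s = dim G`.

We assume that the curve is not contained in a translate of a proper algebraic subgroup (its Lie algebra), and prove: there are
`n + s` fixed functions among the `2 (n + s)` components such that near every point `x` of `U` outside a set of Hausdorff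
dimension `0` their values at ALL points of ALL number fields are independent in bounded degree and height, also over
arbitrary fixed complex numbers `ξ_1, …, ξ_g`, for instance polynomials in the periods of `G`. The theorem is for `N` such
curves `r_j` with different parameters.

Proof: `2 n + s` of the functions and the `ζ(p_i)` are independent (`Y776.Cv.fix_sub`), so `n + s` of the `2 (n + s)` functions; the counting
theorem `Q192.QD.fields_sigma` of the team and a covering argument (`Q229.RAC`, `Q229.RAM`).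
-/

set_option autoImplicit false

open MeasureTheory Filter
open scoped PeriodPair

namespace Pool.Agent.Results.MP_4aec10_nt.PointsNearComplexPoints

open Pool.Agent.Q229.RAN (Near NoRelation)

/-- An analytic curve `(u, l)` in the Lie algebra of the product of the elliptic curves `ℂ / Λ (ty i)`, `i < n`, and the
`s`-dimensional torus. -/
structure Curve (U : Set ℂ) {q n s : ℕ} (Λ : Fin q → PeriodPair) (ty : Fin n → Fin q) (u : Fin n → ℂ → ℂ)
    (l : Fin s → ℂ → ℂ) : Prop where
  pos : 0 < s + n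
  isOpen : IsOpen U
  isPreconnected : IsPreconnected U
  nonempty : U.Nonempty
  /-- the elliptic curves `ℂ / Λ c` are pairwise not isogenous -/
  notIsogenous : ∀ c c', c ≠ c' → ∀ α : ℂ, (∀ w ∈ (Λ c).lattice, α * w ∈ (Λ c').lattice) → α = 0
  analyticU : ∀ i, AnalyticOnNhd ℂ (u i) U
  analyticL : ∀ k, AnalyticOnNhd ℂ (l k) U
  /-- the points `exp(u_i)` are not `0` -/
  notMem : ∀ i, ∀ z ∈ U, u i z ∉ (Λ (ty i)).lattice
  /-- no nontrivial combination of the `u_i` which belong to one elliptic curve, with coefficients in its ring of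
  endomorphisms, is constant -/
  freeU : ∀ (c : Fin q) (a : Fin n → ℂ) (b : ℂ), (∀ i, ∀ w ∈ (Λ c).lattice, a i * w ∈ (Λ c).lattice) →
    (∀ i, ty i ≠ c → a i = 0) → (∀ z ∈ U, ∑ i, a i * u i z = b) → a = 0
  /-- no nontrivial integral combination of the `l_k` is constant -/
  freeL : ∀ (m : Fin s → ℤ) (b : ℂ), (∀ z ∈ U, ∑ k, (m k : ℂ) * l k z = b) → m = 0

/-- The names of the `2 (n + s)` components. -/
abbrev Name (n s : ℕ) : Type := (Fin s ⊕ Fin s) ⊕ (Fin n ⊕ Fin n)

/-- The components `l_k(z)`, `exp(l_k(z))`, `u_i(z)`, `℘(u_i(z))`. -/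
noncomputable def component {q n s : ℕ} (Λ : Fin q → PeriodPair) (ty : Fin n → Fin q) (u : Fin n → ℂ → ℂ)
    (l : Fin s → ℂ → ℂ) (z : ℂ) : Name n s → ℂ :=
  Sum.elim (Sum.elim (fun k => l k z) (fun k => Complex.exp (l k z)))
    (Sum.elim (fun i => u i z) (fun i => ℘[Λ (ty i)] (u i z)))

theorem toFxM {U : Set ℂ} {q n s : ℕ} {Λ : Fin q → PeriodPair} {ty : Fin n → Fin q} {u : Fin n → ℂ → ℂ}
    {l : Fin s → ℂ → ℂ} (h : Curve U Λ ty u l) : Y776.Cv.FxM U Λ ty u l where
  isOpen := h.isOpen
  conn := h.isPreconnected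
  ni := h.notIsogenous
  ua := h.analyticU
  un := h.notMem
  ui := h.freeU
  la := h.analyticL
  li := h.freeL

/-- `n + s` of the components are independent -/
theorem select {U : Set ℂ} {q n s : ℕ} {Λ : Fin q → PeriodPair} {ty : Fin n → Fin q} {u : Fin n → ℂ → ℂ}
    {l : Fin s → ℂ → ℂ} (h : Curve U Λ ty u l) : ∃ e : Fin (n + s) → Name n s, Function.Injective e ∧
      ∀ t ∈ U, Y124.LocInd (fun k z => component Λ ty u l z (e k)) t := by
  classical
  obtain ⟨e, he, hL⟩ := Y776.Cv.fix_sub (toFxM h) h.pos h.nonempty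
  set S : Finset (Fin (s + 2 * n)) := Finset.univ.filter fun k => ∀ i : Fin n,
    e k ≠ Sum.inr (Sum.inr (Sum.inr (Sum.inl i))) with hS
  have hcard : n + s ≤ S.card := by
    have h1 : Sᶜ.card ≤ n := by
      have h2 : ∀ k ∈ Sᶜ, e k ∈ (Finset.univ : Finset (Fin n)).image
            (fun i => (Sum.inr (Sum.inr (Sum.inr (Sum.inl i))) : Y776.Cv.Nf n s)) := by
        intro k hk
        rw [Finset.mem_compl, hS, Finset.mem_filter] at hk
        push Not at hk
        obtain ⟨i, hi⟩ := hk (Finset.mem_univ k)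
        exact Finset.mem_image.2 ⟨i, Finset.mem_univ i, hi.symm⟩
      refine (Finset.card_le_card_of_injOn e h2 (he.injOn)).trans (Finset.card_image_le.trans (by simp))
    have h3 := Finset.card_add_card_compl S
    rw [Fintype.card_fin] at h3
    omega
  set φ := S.orderEmbOfCardLe hcard with hφ
  have hφS : ∀ k, φ k ∈ S := fun k => Finset.orderEmbOfCardLe_mem S hcard k
  have hname : ∀ k, ∃ m : Name n s, ∀ z, component Λ ty u l z m = Y776.Cv.yf Λ ty u l (e (φ k)) z ∧
      (match m with
        | Sum.inl (Sum.inl k) => Sum.inl k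
        | Sum.inl (Sum.inr k) => Sum.inr (Sum.inl k)
        | Sum.inr (Sum.inl i) => Sum.inr (Sum.inr (Sum.inl i))
        | Sum.inr (Sum.inr i) => (Sum.inr (Sum.inr (Sum.inr (Sum.inr i))) : Y776.Cv.Nf n s)) = e (φ k) := by
    intro k
    have h1 := (Finset.mem_filter.1 (hφS k)).2
    rcases h2 : e (φ k) with k' | k' | i | i | i
    · exact ⟨Sum.inl (Sum.inl k'), fun z => ⟨rfl, rfl⟩⟩
    · exact ⟨Sum.inl (Sum.inr k'), fun z => ⟨rfl, rfl⟩⟩
    · exact ⟨Sum.inr (Sum.inl i), fun z => ⟨rfl, rfl⟩⟩
    · exact absurd h2 (h1 i)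
    · exact ⟨Sum.inr (Sum.inr i), fun z => ⟨rfl, rfl⟩⟩
  choose m hm using hname
  refine ⟨m, fun k k' hkk => ?_, fun t ht => ?_⟩
  · have h1 := (hm k 0).2
    have h2 := (hm k' 0).2
    rw [hkk] at h1
    exact φ.injective (he (h1.symm.trans h2))
  · have h1 := Y776.Cv.LocInd.comp_inj (hL t ht) (e := fun k => φ k) φ.injective
    have h2 : (fun k z => component Λ ty u l z (m k)) = fun k => Y776.Cv.yf Λ ty u l (e (φ k)) :=
      funext fun k => funext fun z => (hm k z).1
    rw [h2]
    exact h1

theorem component_an {U : Set ℂ} {q n s : ℕ} {Λ : Fin q → PeriodPair} {ty : Fin n → Fin q} {u : Fin n → ℂ → ℂ}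
    {l : Fin s → ℂ → ℂ} (h : Curve U Λ ty u l) (m : Name n s) :
    AnalyticOnNhd ℂ (fun z => component Λ ty u l z m) U := by
  rcases m with (k | k) | (i | i)
  · exact Y776.Cv.yf_an (toFxM h) (Sum.inl k)
  · exact Y776.Cv.yf_an (toFxM h) (Sum.inr (Sum.inl k))
  · exact Y776.Cv.yf_an (toFxM h) (Sum.inr (Sum.inr (Sum.inl i)))
  · exact Y776.Cv.yf_an (toFxM h) (Sum.inr (Sum.inr (Sum.inr (Sum.inr i))))

/-- Let `N ≥ 1` curves `r_j = (u_j, l_j)` in the Lie algebras of products `G_j` of `n_j` elliptic curves and an `s_j`-dimensional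
torus be given. There are `n_j + s_j = dim G_j` different functions `e_j` among the `2 (n_j + s_j)` components of `r_j(z)` and
`exp r_j(z)` such that for all complex numbers `ξ_1, …, ξ_g`:

(1) for all `m` and `τ > 0` there is a set `Z ⊂ ℂ^N` of Hausdorff dimension at most `(m + 1) (N - 1) / τ` such that for all `x`
outside `Z` in `U_1 × ⋯ × U_N`, all number fields `F_1, …, F_N` in `ℂ`, all `d` and `A`, some `B` and all sufficiently large `T`: for
ALL `a` with `a_j ∈ F_j` of degree at most `m` and height at most `T` and `|x_j - a_j| ≤ T^(-τ)`, the values of the functions `e_j`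
at `a_j` do not satisfy any relation of degree at most `d` in each variable, with coefficients `∑ ξ_i c_i`, `c_i` integers of
`ℚ(a_1, …, a_N)` with all conjugates at most `T^A`, even up to the error `T^(-B)`;

(2) for one curve a set of Hausdorff dimension `0` has this property for all `m` and `τ > 0` at once. -/
theorem result {N : ℕ} (hN : 1 ≤ N) {q n s : Fin N → ℕ} (U : Fin N → Set ℂ) (Λ : ∀ j, Fin (q j) → PeriodPair)
    (ty : ∀ j, Fin (n j) → Fin (q j)) (u : ∀ j, Fin (n j) → ℂ → ℂ) (l : ∀ j, Fin (s j) → ℂ → ℂ)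
    (h : ∀ j, Curve (U j) (Λ j) (ty j) (u j) (l j)) :
    ∃ e : ∀ j, Fin (n j + s j) → Name (n j) (s j), (∀ j, Function.Injective (e j)) ∧ ∀ (g : ℕ) (ξ : Fin g → ℂ),
    (∀ (m : ℕ) (τ : ℝ), 0 < τ →
      ∃ Z : Set (Fin N → ℂ), dimH Z ≤ ENNReal.ofReal (((m : ℝ) + 1) * ((N : ℝ) - 1) / τ) ∧
      ∀ x : Fin N → ℂ, (∀ j, x j ∈ U j) → x ∉ Z → ∀ F : Fin N → IntermediateField ℚ ℂ,
        (∀ j, FiniteDimensional ℚ (F j)) → ∀ (d : ℕ) (A : ℝ), ∃ B : ℝ, ∀ᶠ T : ℝ in atTop, ∀ a : Fin N → ℂ,
          Near m F τ T x a →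
            NoRelation (fun j k z => component (Λ j) (ty j) (u j) (l j) z (e j k)) ξ d A B T a) ∧
    (N = 1 → ∃ Z : Set (Fin N → ℂ), dimH Z = 0 ∧
      ∀ x : Fin N → ℂ, (∀ j, x j ∈ U j) → x ∉ Z → ∀ F : Fin N → IntermediateField ℚ ℂ,
        (∀ j, FiniteDimensional ℚ (F j)) → ∀ (m d : ℕ) (τ A : ℝ), 0 < τ → ∃ B : ℝ, ∀ᶠ T : ℝ in atTop,
          ∀ a : Fin N → ℂ, Near m F τ T x a →
            NoRelation (fun j k z => component (Λ j) (ty j) (u j) (l j) z (e j k)) ξ d A B T a) := by
  choose e he hL using fun j => select (h j)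
  exact ⟨e, he, fun g ξ => Q229.RAN.main hN (fun j => (h j).isOpen) (fun j => (h j).isPreconnected)
    (y := fun j k z => component (Λ j) (ty j) (u j) (l j) z (e j k)) (fun j k => component_an (h j) (e j k))
    (fun j => hL j) ξ⟩

end Pool.Agent.Results.MP_4aec10_nt.PointsNearComplexPoints
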