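import Mathlib
import Pool.Agent.Q24.ET.Mixed2
import Pool.Agent.W245.EB.Par

/-!
# The weak relative conjecture in bounded degree: random translates of every point of the Lie algebra

Let `G = 𝔾ₘ^s × E_1 × … × E_n`, where the `E_j = ℂ/Ω_j` are arbitrary elliptic curves over the algebraic
numbers (they may be equal or isogenous, with or without complex multiplication). The components of a point
`r = (t, p)` of `Lie G_ℂ = ℂ^s × ℂ^n` are the numbers `t_l`, `p_j`, and the components of `exp_G r` are the
numbers `e^(t_l)` and `℘_j(p_j)`, `℘_j'(p_j)`. We fix an ARBITRARY point `r₀ = (τ, b)` of `Lie G_ℂ` and add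
random combinations:

* toric part: for every `l` let `x_{l,1}, …, x_{l,k}` be ARBITRARY complex numbers, linearly independent over
  `ℚ`; `t_l = τ_l + ∑_i a_{l,i} x_{l,i}`;
* elliptic part: for every `j` let `u_{j,1}, …, u_{j,k}` be elliptic logarithms of algebraic points of `E_j`,
  linearly independent over `End (E_j) ⊗ ℚ`; `p_j = b_j + ∑_i m_{j,i} u_{j,i}`.

The coefficients `a`, `m` run through an arbitrary finite set `A` of integers, for instance `{0, 1}`. One can
choose one number `w_l` out of each pair `t_l, e^(t_l)` (the choice depends on `x` only) such that for all but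
`C |A|^((s + n) k - δ k)` of the `|A|^((s + n) k)` choices of `(a, m)` every polynomial relation of degree at
most `D` over the algebraic numbers between arbitrary numbers `θ_1, …, θ_q` (for instance the periods of `G`,
and the coordinates of the elliptic part of `exp_G r₀`) and the `s + n` components `w_l`, `p_j` of `r` and
`exp_G r` is trivial: it is an identity in the `w_l`, `p_j`. So in bounded degree the transcendence degree of
the conjecture is at least `s + n = dim G ≥ d(exp_G r)`.

The numbers `k₀, C, δ` depend on `s`, `n`, `q`, `D` only, and not on `G`, `r₀`, the `x`, `u` and the `θ`.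

In the starting files `SemiabelianTranslates` and `TranslatesInWindows` an arbitrary point `r₀` is translated
by the logarithms of algebraic points with integral coordinates of almost all heights; here we have arbitrary
groups of large rank. The proof combines the theorems `Pool.Agent.Y918.GB.sch` and
`Pool.Agent.Y918.RP.tuplesF` of the starting files.
-/

set_option autoImplicit false

open scoped PeriodPair

noncomputable section

namespace Pool.Agent.Results.MP_4aec10_nt.RandomTranslates

/-- The field of algebraic numbers. -/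
abbrev Qbar : IntermediateField ℚ ℂ := algebraicClosure ℚ ℂ

/-- `β` belongs to the field `End(ℂ/Ω) ⊗ ℚ`: some multiple `m β`, `m ≥ 1`, maps the lattice `Ω` to itself. -/
def IsMult (L : PeriodPair) (β : ℂ) : Prop :=
  ∃ m : ℕ, 0 < m ∧ ∀ ω ∈ L.lattice, (m : ℂ) * β * ω ∈ L.lattice

/-- The numbers `w_j` are linearly independent over `End(ℂ/Ω) ⊗ ℚ`. -/
def IndepMult (L : PeriodPair) {R : ℕ} (w : Fin R → ℂ) : Prop :=
  ∀ β : Fin R → ℂ, (∀ j, IsMult L (β j)) → ∑ j, β j * w j = 0 → ∀ j, β j = 0

/-- `z` is an elliptic logarithm of an algebraic point. -/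
def IsEllLog (L : PeriodPair) (z : ℂ) : Prop := z ∈ L.lattice ∨ IsAlgebraic ℚ (℘[L] z)

/-- Every polynomial relation of total degree at most `D`, with algebraic coefficients, between the
numbers `θ` and the numbers `x` is an identity in the latter. -/
def OnlyTrivialRelations (D : ℕ) {P σ : Type} (θ : P → ℂ) (x : σ → ℂ) : Prop :=
  ∀ Q : MvPolynomial (P ⊕ σ) Qbar, Q.totalDegree ≤ D →
    MvPolynomial.aeval (Sum.elim θ x) Q = 0 →
    ∀ y : σ → ℂ, MvPolynomial.aeval (Sum.elim θ y) Q = 0

/-- The coordinates `b_j + ∑_i m_{j,i} u_{j,i}`. -/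
def translate {n k : ℕ} (b : Fin n → ℂ) (u : Fin n → Fin k → ℂ) (m : Fin n → Fin k → ℤ)
    (j : Fin n) : ℂ := b j + ∑ i, (m j i : ℂ) * u j i

open Pool.Agent.W245.EB

open Classical in
/-- **Main result.** `c l` tells whether `t_l` or `e^(t_l)` is taken. -/
theorem result (s n q D : ℕ) : ∃ (k₀ C : ℕ) (δ : ℝ), 0 < δ ∧ ∀ k ≥ k₀,
    -- toric part: arbitrary complex numbers
    ∀ x : Fin s → Fin k → ℂ, (∀ l, LinearIndependent ℚ (x l)) → ∃ c : Fin s → Bool,
    -- elliptic curves over the algebraic numbers
    ∀ L : Fin n → PeriodPair, (∀ j, IsAlgebraic ℚ (L j).g₂) → (∀ j, IsAlgebraic ℚ (L j).g₃) →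
    -- elliptic logarithms of algebraic points
    ∀ u : Fin n → Fin k → ℂ, (∀ j i, IsEllLog (L j) (u j i)) → (∀ j, IndepMult (L j) (u j)) →
    ∀ A : Finset ℤ, A.Nonempty → ∀ (τ : Fin s → ℂ) (b : Fin n → ℂ) (θ : Fin q → ℂ),
    ((((Fintype.piFinset fun _ : Fin s => Fintype.piFinset fun _ : Fin k => A) ×ˢ
        (Fintype.piFinset fun _ : Fin n => Fintype.piFinset fun _ : Fin k => A)).filter
      (fun z => ¬ OnlyTrivialRelations D θ
        (Sum.elim (fun l => if c l = true then translate τ x z.1 l else
          Complex.exp (translate τ x z.1 l)) (translate b u z.2)))).card : ℝ) ≤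
      C * (A.card : ℝ) ^ (((s + n) * k : ℝ) - δ * k) := by
  obtain ⟨k₀, C, δ, hδ, h⟩ := Pool.Agent.Q24.ET.mixed2 s n D ((D + 1) ^ q)
  refine ⟨k₀, C, δ, hδ, fun k hk x hx => ?_⟩
  obtain ⟨c, hc⟩ := h k hk x hx
  refine ⟨c, fun L h2 h3 u hu hind A hA τ b θ => ?_⟩
  have hv : ∀ j, LinearIndependent Qbar (u j) := by
    intro j
    have h4 := second_indep (h2 j) (h3 j)
      (u := u j) ⟨hu j, fun β hβ h0 => funext fun i => hind j β hβ h0 i⟩
      isAlgebraic_zero isAlgebraic_one (Or.inr one_ne_zero)
    have h5 : (fun i => (0 : ℂ) * zt (L j) (u j i) + 1 * u j i) = u j := by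
      funext i
      ring
    rw [h5] at h4
    exact h4
  set W : Submodule Qbar ℂ := monSpan θ D with hWdef
  have hfin : Module.Finite Qbar W := monSpan_finite θ D
  have hW : Module.finrank Qbar W ≤ (D + 1) ^ q := by
    refine (finrank_monSpan θ D).trans (le_of_eq ?_)
    simp
  refine le_trans (Nat.cast_le.2 (Finset.card_le_card ?_)) (hc u hv A hA W hfin hW τ b)
  intro z hz
  rw [Finset.mem_filter] at hz ⊢
  refine ⟨hz.1, fun hG => hz.2 ?_⟩
  intro Q hQ h0 y
  exact NoRelTot.param θ hG Q hQ h0 y

end Pool.Agent.Results.MP_4aec10_nt.RandomTranslates
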